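import Pool.Agent.Helper24.TF.StF

/-!
# Project TF, module F5: induction step for the mean of a quadratic character
-/

set_option autoImplicit false

namespace Pool.Agent.Helper6.TF

open NumberField IsDedekindDomain Polynomial Filter Topology
open Pool.Agent.Helper95.TT Pool.Agent.Helper24.TF
open scoped Classical

noncomputable section

variable {k : Type} [Field k] [NumberField k] {m : ℕ}

theorem finite_Kv (v : Pr k) : Finite (Kv v) :=
  Ideal.finiteQuotientOfFreeOfNeBot v.asIdeal v.ne_bot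

theorem card_Kv (v : Pr k) : Nat.card (Kv v) = q v := by
  rw [q, Ideal.absNorm_apply, Submodule.cardQuot_apply]

theorem domain_Kv (v : Pr k) : IsDomain (Kv v) := by
  have := v.isPrime
  infer_instance

theorem q_pos (v : Pr k) : 0 < q v := by
  have := finite_Kv v
  have := domain_Kv v
  rw [← card_Kv]
  exact Nat.card_pos

theorem val_cons (v : Pr k) (x : Kv v) (y : Fin m → Kv v) (E : Py k (m + 1)) :
    val v (Fin.cons x y) E = (fib (MvPolynomial.finSuccEquiv (𝓞 k) m E) v y).eval x := by
  have h : val v (Fin.cons x y : Fin (m + 1) → Kv v) =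
      (Polynomial.evalRingHom x).comp ((Polynomial.mapRingHom (val v y)).comp
        ((MvPolynomial.finSuccEquiv (𝓞 k) m : Py k (m + 1) ≃ₐ[𝓞 k] (Py k m)[X]) :
          Py k (m + 1) →+* (Py k m)[X])) := by
    apply MvPolynomial.ringHom_ext
    · intro a
      simp [val, MvPolynomial.finSuccEquiv_apply]
    · intro i
      refine Fin.cases ?_ (fun j => ?_) i
      · simp [val, MvPolynomial.finSuccEquiv_X_zero]
      · simp [val, MvPolynomial.finSuccEquiv_X_succ]
  rw [h]
  simp [fib]

theorem chF_abs (v : Pr k) (a : Kv v) : |chF v a| ≤ 1 := by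
  unfold chF
  split_ifs <;> simp

theorem chF_sq (v : Pr k) (a : Kv v) (ha : a ≠ 0) : chF v a * chF v a = 1 := by
  unfold chF
  rw [if_neg ha]
  split_ifs <;> simp

theorem sum_bound {Y : Type} [Fintype Y] (g : Y → ℝ) (bad : Y → Prop) (A B : ℝ) (hA : 0 ≤ A)
    (h1 : ∀ y, ¬ bad y → |g y| ≤ A) (h2 : ∀ y, bad y → |g y| ≤ B) :
    |∑ y, g y| ≤ Fintype.card Y * A + Nat.card {y // bad y} * B := by
  have h3 : ∀ y, |g y| ≤ A + if bad y then B else 0 := by
    intro y
    by_cases h : bad y
    · rw [if_pos h]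
      have := h2 y h
      linarith
    · rw [if_neg h]
      have := h1 y h
      linarith
  calc |∑ y, g y| ≤ ∑ y, |g y| := Finset.abs_sum_le_sum_abs _ _
    _ ≤ ∑ y, (A + if bad y then B else 0) := Finset.sum_le_sum fun y _ => h3 y
    _ = Fintype.card Y * A + Nat.card {y // bad y} * B := by
      rw [Finset.sum_add_distrib, Finset.sum_const, Finset.card_univ, nsmul_eq_mul,
        ← Finset.sum_filter, Finset.sum_const, nsmul_eq_mul, Nat.card_eq_fintype_card,
        Fintype.card_subtype]

theorem fiber_sum (v : Pr k) [Fintype (Kv v)]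
    (hmul : ∀ a b : Kv v, chF v (a * b) = chF v a * chF v b)
    (y : Fin m → Kv v) (δ : Py k m) (E P Q : (Py k m)[X]) (h : C δ ^ 2 * E = P * Q ^ 2)
    (hδ : val v y δ ≠ 0) (hQ : val v y Q.leadingCoeff ≠ 0) :
    |∑ x : Kv v, (chF v ((fib E v y).eval x) - chF v ((fib P v y).eval x))| ≤
      2 * Q.natDegree := by
  have := domain_Kv v
  have hQ0 : fib Q v y ≠ 0 := by
    intro h0
    apply hQ
    have := congrArg (fun p : (Kv v)[X] => p.coeff Q.natDegree) h0
    simpa [fib] using this
  have hc : (Nat.card {x : Kv v // (fib Q v y).eval x = 0} : ℝ) ≤ Q.natDegree := by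
    rw [Nat.card_eq_fintype_card, Fintype.card_subtype]
    have h1 : (Finset.univ.filter fun x : Kv v => (fib Q v y).eval x = 0) ⊆
        (fib Q v y).roots.toFinset := by
      intro x hx
      rw [Finset.mem_filter] at hx
      rw [Multiset.mem_toFinset, Polynomial.mem_roots hQ0]
      exact hx.2
    have h2 := Finset.card_le_card h1
    have h3 := Multiset.toFinset_card_le (fib Q v y).roots
    have h4 := Polynomial.card_roots' (fib Q v y)
    have h5 : (fib Q v y).natDegree ≤ Q.natDegree := Polynomial.natDegree_map_le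
    exact_mod_cast h2.trans (h3.trans (h4.trans h5))
  have hs := sum_bound (fun x : Kv v => chF v ((fib E v y).eval x) - chF v ((fib P v y).eval x))
    (fun x => (fib Q v y).eval x = 0) 0 2 le_rfl ?_ ?_
  · calc |∑ x : Kv v, (chF v ((fib E v y).eval x) - chF v ((fib P v y).eval x))| ≤ _ := hs
      _ ≤ 2 * Q.natDegree := by linarith
  · intro x hx
    have h1 : val v y δ * val v y δ * (fib E v y).eval x =
        (fib P v y).eval x * ((fib Q v y).eval x * (fib Q v y).eval x) := by
      have h2 := congrArg (fun p : (Py k m)[X] => (p.map (val v y)).eval x) h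
      simp only [Polynomial.map_mul, Polynomial.map_pow, Polynomial.map_C, Polynomial.eval_mul,
        Polynomial.eval_pow, Polynomial.eval_C] at h2
      simp only [fib]
      linear_combination h2
    have h2 := congrArg (chF v) h1
    rw [hmul, hmul, hmul, hmul, chF_sq v _ hδ, chF_sq v _ hx] at h2
    simp only [one_mul, mul_one] at h2
    rw [h2]
    simp
  · intro x _
    have h1 := abs_le.1 (chF_abs v ((fib E v y).eval x))
    have h2 := abs_le.1 (chF_abs v ((fib P v y).eval x))
    rw [abs_le]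
    constructor <;> linarith [h1.1, h1.2, h2.1, h2.2]

theorem av_succ (v : Pr k) [Fintype (Kv v)] (E : Py k (m + 1)) :
    av E v = (∑ y : Fin m → Kv v, ∑ x : Kv v,
      chF v ((fib (MvPolynomial.finSuccEquiv (𝓞 k) m E) v y).eval x)) / (q v : ℝ) ^ (m + 1) := by
  unfold av
  rw [finsum_eq_sum_of_fintype]
  congr 1
  rw [← Fintype.sum_equiv (Fin.consEquiv (fun _ : Fin (m + 1) => Kv v))
    (fun p : Kv v × (Fin m → Kv v) =>
      chF v ((fib (MvPolynomial.finSuccEquiv (𝓞 k) m E) v p.2).eval p.1)) _ ?_]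
  · rw [Fintype.sum_prod_type_right]
  · intro p
    rw [← val_cons]
    rfl

/-- `q^(m+1) av E` is the sum over the points `y` of the sums over the fibres. -/
theorem av_succ_mul (v : Pr k) [Fintype (Kv v)] (E : Py k (m + 1)) :
    av E v * (q v : ℝ) ^ (m + 1) = ∑ y : Fin m → Kv v, ∑ x : Kv v,
      chF v ((fib (MvPolynomial.finSuccEquiv (𝓞 k) m E) v y).eval x) := by
  rw [av_succ, div_mul_cancel₀]
  have := q_pos v
  positivity

theorem card_pts (v : Pr k) [Fintype (Kv v)] :
    (Fintype.card (Fin m → Kv v) : ℝ) = (q v : ℝ) ^ m := by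
  rw [Fintype.card_fun, Fintype.card_fin, ← Nat.card_eq_fintype_card, card_Kv]
  push_cast
  rfl

theorem sum_x_abs (v : Pr k) [Fintype (Kv v)] (h : (Kv v)[X]) :
    |∑ x : Kv v, chF v (h.eval x)| ≤ q v := by
  calc |∑ x : Kv v, chF v (h.eval x)| ≤ ∑ x : Kv v, |chF v (h.eval x)| :=
        Finset.abs_sum_le_sum_abs _ _
    _ ≤ ∑ _x : Kv v, (1 : ℝ) := Finset.sum_le_sum fun x _ => chF_abs v _
    _ = q v := by
      rw [Finset.sum_const, Finset.card_univ, ← Nat.card_eq_fintype_card, card_Kv]
      simp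

theorem sqrt_q (v : Pr k) : 1 ≤ √(q v : ℝ) ∧ √(q v : ℝ) * √(q v : ℝ) = q v := by
  have h : (1 : ℝ) ≤ q v := by
    have := q_pos v
    exact_mod_cast this
  refine ⟨?_, Real.mul_self_sqrt (by linarith)⟩
  rw [Real.one_le_sqrt]
  exact h

theorem hF5 (hA7 : StA7) (hF1 : StF1) (hF2 : StF2) (hF3 : StF3) (hF4 : StF4) : StF5 := by
  intro k _ _ m E hE hns
  set E' := MvPolynomial.finSuccEquiv (𝓞 k) m E with hE'
  have hE'0 : E' ≠ 0 := by
    intro h
    apply hE
    exact (map_eq_zero_iff (MvPolynomial.finSuccEquiv (𝓞 k) m)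
      (MvPolynomial.finSuccEquiv (𝓞 k) m).injective).1 h
  obtain ⟨δ, P, Q, hδ, hP, hQ, hPQ, hsep⟩ := hF4 k m E' hE'0
  have hR2 : {v : Pr k | (2 : 𝓞 k) ∈ v.asIdeal}.Finite := (hA7 k).1 2 (by norm_num)
  have hlQ : Q.leadingCoeff ≠ 0 := Polynomial.leadingCoeff_ne_zero.2 hQ
  by_cases hd : 1 ≤ P.natDegree
  · obtain ⟨P₂, hP₂, hgood⟩ := hF2 k m P hP hsep
    obtain ⟨C₁, R₁, hC₁, hR₁, hbad⟩ := hF1 k m (δ * Q.leadingCoeff * P₂)
      (mul_ne_zero (mul_ne_zero hδ hlQ) hP₂)
    refine ⟨(8 * P.natDegree + 12) + (1 + 2 * Q.natDegree + C₁),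
      {v : Pr k | (2 : 𝓞 k) ∈ v.asIdeal} ∪ R₁, hR2.union hR₁, Or.inl ?_⟩
    intro v hv
    have hv2 : (2 : 𝓞 k) ∉ v.asIdeal := fun h => hv (Or.inl h)
    have hv1 : v ∉ R₁ := fun h => hv (Or.inr h)
    obtain ⟨hmul, -, hweil, hsum, -⟩ := hF3 k v hv2
    have := finite_Kv v
    have := domain_Kv v
    let _ : Fintype (Kv v) := Fintype.ofFinite _
    have hb := hbad v hv1
    have hs := sum_bound (fun y : Fin m → Kv v => ∑ x : Kv v, chF v ((fib E' v y).eval x))
      (fun y => val v y (δ * Q.leadingCoeff * P₂) = 0)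
      ((8 * P.natDegree + 12) * √(q v) + 1 + 2 * Q.natDegree) (q v) (by positivity) ?_ ?_
    · rw [← av_succ_mul, card_pts] at hs
      obtain ⟨hq1, hq2⟩ := sqrt_q v
      have hqm : (0 : ℝ) < (q v : ℝ) ^ m := by
        have := q_pos v
        positivity
      rw [abs_mul, abs_of_nonneg (by positivity : (0 : ℝ) ≤ (q v : ℝ) ^ (m + 1)), pow_succ] at hs
      have h1 : |av E v| * q v ≤
          (8 * P.natDegree + 12) * √(q v) + 1 + 2 * Q.natDegree + C₁ := by
        have h2 : (|av E v| * q v) * (q v : ℝ) ^ m ≤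
            ((8 * P.natDegree + 12) * √(q v) + 1 + 2 * Q.natDegree + C₁) * (q v : ℝ) ^ m := by
          nlinarith [hs, hb]
        exact le_of_mul_le_mul_right h2 hqm
      have h3 : (|av E v| * √(q v)) * √(q v) ≤
          ((8 * P.natDegree + 12) + (1 + 2 * Q.natDegree + C₁)) * √(q v) := by
        rw [mul_assoc, hq2]
        have h4 : (1 + 2 * Q.natDegree + C₁) * 1 ≤ (1 + 2 * (Q.natDegree : ℝ) + C₁) * √(q v) :=
          mul_le_mul_of_nonneg_left hq1 (by positivity)
        linarith
      exact le_of_mul_le_mul_right h3 (by linarith)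
    · intro y hy
      simp only [map_mul, mul_eq_zero, not_or] at hy
      obtain ⟨⟨hy1, hy2⟩, hy3⟩ := hy
      obtain ⟨hdeg, hsq⟩ := hgood v y hy3
      have h1 := fiber_sum v hmul y δ E' P Q hPQ hy1 hy2
      have h2 := hweil (fib P v y) (by rw [hdeg]; exact hd) hsq
      have h3 := hsum (fib P v y)
      rw [finsum_eq_sum_of_fintype] at h3
      rw [hdeg] at h2
      rw [Finset.sum_sub_distrib] at h1
      have h4 := abs_sub_abs_le_abs_sub (∑ x : Kv v, chF v ((fib E' v y).eval x))
        (∑ x : Kv v, chF v ((fib P v y).eval x))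
      show |∑ x : Kv v, chF v ((fib E' v y).eval x)| ≤ _
      linarith
    · intro y _
      exact sum_x_abs v _
  · have hd0 : P.natDegree = 0 := by omega
    obtain ⟨e, he⟩ : ∃ e : Py k m, P = C e := ⟨P.coeff 0, Polynomial.eq_C_of_natDegree_eq_zero hd0⟩
    have he0 : e ≠ 0 := by
      intro h
      apply hP
      rw [he, h, Polynomial.C_0]
    obtain ⟨C₁, R₁, hC₁, hR₁, hbad⟩ := hF1 k m (δ * Q.leadingCoeff) (mul_ne_zero hδ hlQ)
    refine ⟨2 * Q.natDegree + 2 * C₁, {v : Pr k | (2 : 𝓞 k) ∈ v.asIdeal} ∪ R₁, hR2.union hR₁,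
      Or.inr ⟨e, he0, ?_, ?_⟩⟩
    · rintro ⟨s, hs⟩
      apply hns
      obtain ⟨a, b, hb, hab⟩ := IsFractionRing.div_surjective (A := Py k m) s
      have hb0 : b ≠ 0 := nonZeroDivisors.ne_zero hb
      have hb0' : algebraMap (Py k m) (Ky k m) b ≠ 0 := by
        rwa [Ne, FaithfulSMul.algebraMap_eq_zero_iff]
      have h1 : e * b ^ 2 = a ^ 2 := by
        apply FaithfulSMul.algebraMap_injective (Py k m) (Ky k m)
        rw [map_mul, map_pow, map_pow, hs, ← hab]
        field_simp
      have h2 : (C b * C δ) ^ 2 * E' = (C a * Q) ^ 2 := by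
        have h3 : (C e : (Py k m)[X]) * C b ^ 2 = C a ^ 2 := by
          rw [← Polynomial.C_pow, ← Polynomial.C_pow, ← Polynomial.C_mul, h1]
        rw [he] at hPQ
        linear_combination (C b) ^ 2 * hPQ + Q ^ 2 * h3
      have h4 := congrArg (MvPolynomial.finSuccEquiv (𝓞 k) m).symm h2
      rw [map_mul, map_pow, map_pow, hE', AlgEquiv.symm_apply_apply] at h4
      set β := (MvPolynomial.finSuccEquiv (𝓞 k) m).symm (C b * C δ) with hβ
      set γ := (MvPolynomial.finSuccEquiv (𝓞 k) m).symm (C a * Q) with hγ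
      have hβ0 : β ≠ 0 := by
        rw [hβ, Ne, map_eq_zero_iff _ (MvPolynomial.finSuccEquiv (𝓞 k) m).symm.injective]
        exact mul_ne_zero (Polynomial.C_ne_zero.2 hb0) (Polynomial.C_ne_zero.2 hδ)
      have hβ0' : algebraMap (Py k (m + 1)) (Ky k (m + 1)) β ≠ 0 := by
        rwa [Ne, FaithfulSMul.algebraMap_eq_zero_iff]
      refine ⟨algebraMap (Py k (m + 1)) (Ky k (m + 1)) γ /
        algebraMap (Py k (m + 1)) (Ky k (m + 1)) β, ?_⟩
      have h5 := congrArg (algebraMap (Py k (m + 1)) (Ky k (m + 1))) h4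
      rw [map_mul, map_pow, map_pow] at h5
      field_simp
      linear_combination h5
    · intro v hv
      have hv2 : (2 : 𝓞 k) ∉ v.asIdeal := fun h => hv (Or.inl h)
      have hv1 : v ∉ R₁ := fun h => hv (Or.inr h)
      obtain ⟨hmul, -, -, -, -⟩ := hF3 k v hv2
      have := finite_Kv v
      have := domain_Kv v
      let _ : Fintype (Kv v) := Fintype.ofFinite _
      have hb := hbad v hv1
      have hPe : ∀ (y : Fin m → Kv v), ∑ x : Kv v, chF v ((fib P v y).eval x) =
          q v * chF v (val v y e) := by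
        intro y
        have h1 : ∀ x : Kv v, (fib P v y).eval x = val v y e := by
          intro x
          rw [fib, he, Polynomial.map_C, Polynomial.eval_C]
        simp only [h1]
        rw [Finset.sum_const, Finset.card_univ, ← Nat.card_eq_fintype_card, card_Kv, nsmul_eq_mul]
      have hs := sum_bound (fun y : Fin m → Kv v =>
        ∑ x : Kv v, (chF v ((fib E' v y).eval x) - chF v ((fib P v y).eval x)))
        (fun y => val v y (δ * Q.leadingCoeff) = 0)
        (2 * Q.natDegree) (2 * q v) (by positivity) ?_ ?_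
      · have h1 : ∑ y : Fin m → Kv v,
            ∑ x : Kv v, (chF v ((fib E' v y).eval x) - chF v ((fib P v y).eval x)) =
            (av E v - av e v) * (q v : ℝ) ^ (m + 1) := by
          have hq := q_pos v
          have h2 : av e v * (q v : ℝ) ^ (m + 1) =
              ∑ y : Fin m → Kv v, (q v : ℝ) * chF v (val v y e) := by
            rw [av, finsum_eq_sum_of_fintype, ← Finset.mul_sum, pow_succ]
            have hq' : ((q v : ℝ) ^ m) ≠ 0 := by positivity
            field_simp
          rw [sub_mul, av_succ_mul, h2, ← Finset.sum_sub_distrib]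
          refine Finset.sum_congr rfl fun y _ => ?_
          rw [Finset.sum_sub_distrib, hPe y]
        rw [h1, card_pts] at hs
        have hqm : (0 : ℝ) < (q v : ℝ) ^ m := by
          have := q_pos v
          positivity
        rw [abs_mul, abs_of_nonneg (by positivity : (0 : ℝ) ≤ (q v : ℝ) ^ (m + 1)), pow_succ] at hs
        have h2 : (|av E v - av e v| * q v) * (q v : ℝ) ^ m ≤
            (2 * Q.natDegree + 2 * C₁) * (q v : ℝ) ^ m := by
          nlinarith [hs, hb]
        exact le_of_mul_le_mul_right h2 hqm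
      · intro y hy
        simp only [map_mul, mul_eq_zero, not_or] at hy
        exact fiber_sum v hmul y δ E' P Q hPQ hy.1 hy.2
      · intro y _
        show |∑ x : Kv v, (chF v ((fib E' v y).eval x) - chF v ((fib P v y).eval x))| ≤ _
        rw [Finset.sum_sub_distrib]
        have h1 := abs_le.1 (sum_x_abs v (fib E' v y))
        have h2 := abs_le.1 (sum_x_abs v (fib P v y))
        rw [abs_le]
        constructor <;> linarith [h1.1, h1.2, h2.1, h2.2]

end

end Pool.Agent.Helper6.TF
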